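import Pool.Agent.H.MP_aa79fc_nt.A

namespace Pool.Agent.Results.MP_aa79fc_nt.Sym

open Finset

def a {k : ℕ} (u : Fin k → Fin 3) (j : Fin k) : ℕ := #{h | h ≤ j ∧ u h = 1}

def b {k : ℕ} (u : Fin k → Fin 3) (j : Fin k) : ℕ := #{h | j ≤ h ∧ u h = 0}

noncomputable def fac (N : ℕ) (q : RatFunc ℚ) {k : ℕ} (u : Fin k → Fin 3) (j : Fin k) (n : ℕ) :
    RatFunc ℚ :=
  if u j = 0 then 1 / (1 - q ^ ((n : ℤ) + a u j))
  else if u j = 1 then -1 / (1 - q ^ ((n : ℤ) - N - b u j))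
  else 1 / (1 - q ^ ((n : ℤ) + a u j)) - 1 / (1 - q ^ ((n : ℤ) - N - b u j))

open Classical in
noncomputable def Z (N : ℕ) (q : RatFunc ℚ) {k : ℕ} (u : Fin k → Fin 3) : RatFunc ℚ :=
  ∑ n : Fin k → Fin (N + 1) with Monotone n, ∏ j, fac N q u j (n j)

open Pool.Agent.H.MP_aa79fc_nt.A

theorem Z_eq (N : ℕ) (q : RatFunc ℚ) {k : ℕ} (u : Fin k → Fin 3) (s : RatFunc ℚ) :
    s ^ k * Z N q u = S (fun j n => if h : j < k then s * fac N q u ⟨j, h⟩ n else 0) k N := by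
  rw [← sum_mono _ N k N le_rfl, Z, sum_filter, mul_sum]
  refine sum_congr rfl fun f _ => ?_
  simp [Nat.lt_succ_iff.1 (f _).2, prod_mul_distrib]

def a' {k : ℕ} (u : Fin k → Fin 3) (j : ℕ) : ℕ := #{h | h.1 < j ∧ u h = 1}

def b' {k : ℕ} (u : Fin k → Fin 3) (j : ℕ) : ℕ := #{h | j ≤ h.1 ∧ u h = 0}

theorem a1 {k : ℕ} (u : Fin k → Fin 3) (j : Fin k) :
    a' u (j + 1) = a' u j + if u j = 1 then 1 else 0 := by
  rw [a', a', card_filter, card_filter, ← Fintype.sum_ite_eq j fun _ => if u j = 1 then 1 else 0,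
    ← sum_add_distrib]
  exact sum_congr rfl fun h _ => by grind

theorem b1 {k : ℕ} (u : Fin k → Fin 3) (j : Fin k) :
    b' u j = b' u (j + 1) + if u j = 0 then 1 else 0 := by
  rw [b', b', card_filter, card_filter, ← Fintype.sum_ite_eq j fun _ => if u j = 0 then 1 else 0,
    ← sum_add_distrib]
  exact sum_congr rfl fun h _ => by grind

theorem q1 (i : ℕ) : (RatFunc.X : RatFunc ℚ) ^ (i + 1) - 1 ≠ 0 := by
  rw [← RatFunc.algebraMap_X, ← map_pow, ← map_one (algebraMap (Polynomial ℚ) (RatFunc ℚ)),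
    ← map_sub]
  exact RatFunc.algebraMap_ne_zero (Polynomial.X_pow_sub_C_ne_zero i.succ_pos 1)

theorem inv1 {y : RatFunc ℚ} (h0 : y ≠ 0) (h : 1 - y ≠ 0) : 1 / (1 - y⁻¹) = 1 - 1 / (1 - y) := by
  have : y - 1 ≠ 0 := fun e => h (by linear_combination -e)
  field_simp
  ring

theorem result (N k : ℕ) (u : Fin k → Fin 3)
    (hu : ∀ h : 0 < k, u ⟨0, h⟩ = 1 ∧ u ⟨k - 1, by omega⟩ = 0) :
    Z N (RatFunc.X)⁻¹ u = (-1) ^ k * Z N RatFunc.X u := by
  set q : RatFunc ℚ := RatFunc.X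
  have q0 : q ≠ 0 := RatFunc.X_ne_zero
  have n1 (i : ℕ) (hi : 0 < i) : 1 - q ^ i ≠ 0 := fun e =>
    q1 (i - 1) (by rw [Nat.sub_add_cancel hi]; linear_combination -e)
  have key := main q0 q1 N k (fun j n => if h : j < k then 1 * fac N q u ⟨j, h⟩ n else 0)
    (fun j n => if h : j < k then -1 * fac N q⁻¹ u ⟨j, h⟩ n else 0) (fun j => q ^ a' u j)
    (fun j => q ^ (N + b' u j)) (fun j => ((q ^ a' u j) ^ (N + b' u j))⁻¹)
    (fun j => pow_ne_zero _ q0) (by simp [a']) (by simp [a']) (fun j hj m d hd => ?_) N le_rfl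
  · have : b' u k = 0 := by simp [b', Nat.not_le.2 (Fin.is_lt _)]
    simp only [this, add_zero] at key
    rw [← fin q0, ← Z_eq, ← Z_eq, mul_inv_cancel₀ (by positivity), one_pow, one_mul, one_mul] at key
    rw [← key, ← mul_assoc, ← mul_pow]
    simp
  have ea : a u ⟨j, hj⟩ = a' u (j + 1) := by simp only [a, a', Fin.le_def, Nat.lt_succ_iff]
  have eb : b u ⟨j, hj⟩ = b' u j := rfl
  have pa : 0 < a' u (j + 1) := card_pos.2 ⟨⟨0, by omega⟩, by simp [(hu (by omega)).1]⟩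
  have pb : 0 < b' u j := card_pos.2 ⟨⟨k - 1, by omega⟩, by simp [(hu (by omega)).2]; omega⟩
  have x0 (n : ℕ) : q ^ ((n : ℤ) + a' u (j + 1)) = q ^ a' u (j + 1) * q ^ n := by
    rw [zpow_add₀ q0, zpow_natCast, zpow_natCast, mul_comm]
  have y0 (n : ℕ) : q ^ ((n : ℤ) - N - b' u j) = (q ^ (N + b' u j) / q ^ n)⁻¹ := by
    rw [sub_sub, zpow_sub₀ q0, ← Nat.cast_add, zpow_natCast, zpow_natCast, inv_div]
  have x1 (n : ℕ) : 1 - q ^ a' u (j + 1) * q ^ n ≠ 0 := by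
    rw [← pow_add]
    exact n1 _ (by omega)
  have y1 (n : ℕ) (hn : n ≤ N) : 1 - q ^ (N + b' u j) / q ^ n ≠ 0 := by
    rw [div_eq_mul_inv, ← pow_sub₀ _ q0 (by omega)]
    exact n1 _ (by omega)
  have A := a1 u ⟨j, hj⟩
  have B := b1 u ⟨j, hj⟩
  simp only [dif_pos hj, fac, ea, eb, inv_zpow, x0, y0, inv_inv, neg_div,
    inv1 (by positivity) (x1 _), inv1 (by positivity) (y1 m (by omega))]
  split_ifs with h0 h1
  · simp only [h0, zero_ne_one, if_false, if_true, add_zero] at A B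
    rw [← A, B, ← add_assoc, pow_succ, pow_succ]
    have := sx q0 _ (q ^ (N + b' u (j + 1))) m d (x1 _) (x1 _)
    have e : (q ^ a' u (j + 1))⁻¹ * q ^ a' u (j + 1) = 1 := inv_mul_cancel₀ (by positivity)
    rw [mul_inv]
    linear_combination ((q ^ a' u (j + 1)) ^ (N + b' u (j + 1)))⁻¹ * (q ^ a' u (j + 1))⁻¹ * this +
      ((q ^ a' u (j + 1)) ^ (N + b' u (j + 1)))⁻¹ * T q _ _ m d *
        (1 / (1 - q ^ a' u (j + 1) * q ^ m)) * e
  · simp only [h1, one_ne_zero, if_false, if_true, add_zero] at A B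
    rw [← B, A, pow_succ, mul_pow, mul_inv]
    linear_combination ((q ^ a' u j) ^ (N + b' u j))⁻¹ *
      sy q0 (q ^ a' u j) _ (by positivity) m d (y1 _ (by omega)) (y1 _ hd)
  · simp only [h0, h1, if_false, add_zero] at A B
    rw [← A, ← B]
    linear_combination ((q ^ a' u (j + 1)) ^ (N + b' u j))⁻¹ *
      sz q0 _ _ m d (x1 _) (x1 _) (y1 _ (by omega)) (y1 _ hd)

end Pool.Agent.Results.MP_aa79fc_nt.Sym
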